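import Pool.Agent.W707.HM.Stm

set_option autoImplicit false

namespace Pool.Agent.W414.HM

open Set
open Pool.Agent.W707.HM
open Pool.Agent.W360.MQ (RC)

/-- supporting line at an interior point -/
theorem exists_SG {f : ℝ → ℝ} (hf : ConvexOn ℝ (Icc (-1 : ℝ) 1) f) {t : ℝ} (h1 : -1 < t)
    (h2 : t < 1) : ∃ m, SG f t m := by
  have hm1 : (-1 : ℝ) ∈ Icc (-1 : ℝ) 1 := ⟨le_rfl, by norm_num⟩
  have hp1 : (1 : ℝ) ∈ Icc (-1 : ℝ) 1 := ⟨by norm_num, le_rfl⟩
  set S : Set ℝ := (fun u => (f t - f u) / (t - u)) '' Ico (-1) t with hS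
  have hne : S.Nonempty := ⟨_, -1, ⟨le_rfl, h1⟩, rfl⟩
  have hub : ∀ w ∈ Icc (-1 : ℝ) 1, t < w → ∀ x ∈ S, x ≤ (f w - f t) / (w - t) := by
    rintro w hw htw x ⟨u, hu, rfl⟩
    exact hf.slope_mono_adjacent ⟨hu.1, (hu.2.trans h2).le⟩ hw hu.2 htw
  have hbdd : BddAbove S := ⟨_, fun x hx => hub 1 hp1 h2 x hx⟩
  refine ⟨sSup S, ⟨h1.le, h2.le⟩, fun u hu => ?_⟩
  rcases lt_trichotomy u t with h | h | h
  · have h3 : (f t - f u) / (t - u) ≤ sSup S := le_csSup hbdd ⟨u, ⟨hu.1, h⟩, rfl⟩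
    rw [div_le_iff₀ (by linarith)] at h3
    linarith
  · rw [h]; simp
  · have h3 : sSup S ≤ (f u - f t) / (u - t) := csSup_le hne (hub u hu h)
    rw [le_div_iff₀ (by linarith)] at h3
    linarith

theorem sg_left {p : ℝ} {f : ℝ → ℝ} (h : QE p f) : SG f (-1) (-(p / 2 * f (-1))) := by
  refine ⟨⟨le_rfl, by norm_num⟩, fun u hu => ?_⟩
  have := h u hu
  linarith

theorem sg_right {p : ℝ} {f : ℝ → ℝ} (h : QE p (mir f)) : SG f 1 (p / 2 * f 1) := by
  refine ⟨⟨by norm_num, le_rfl⟩, fun u hu => ?_⟩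
  have h1 := h (-u) ⟨by linarith [hu.2], by linarith [hu.1]⟩
  simp only [mir, neg_neg] at h1
  linarith

theorem main (hC2 : S_C2) (hRC1 : S_RC1) (hSCL : S_SCL) : S_CORE := by
  intro p f hA hA' t0 ht0
  have hL := sg_left hA.qe
  have hR := sg_right hA'.qe
  have hm1 : (-1 : ℝ) ∈ Icc (-1 : ℝ) 1 := ⟨le_rfl, by norm_num⟩
  have hp1 : (1 : ℝ) ∈ Icc (-1 : ℝ) 1 := ⟨by norm_num, le_rfl⟩
  have hp := hA.hp
  -- the choice of the slope
  obtain ⟨m0, hm, hlo, hhi, e1, e2⟩ : ∃ m0, SG f t0 m0 ∧ -(p / 2 * f (-1)) ≤ m0 ∧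
      m0 ≤ p / 2 * f 1 ∧ (t0 = 1 → m0 = p / 2 * f 1) ∧ (t0 = -1 → m0 = -(p / 2 * f (-1))) := by
    have hsum : -(p / 2 * f (-1)) ≤ p / 2 * f 1 := by
      have h1 := hL.2 1 hp1
      have h2 := hR.2 (-1) hm1
      linarith
    rcases eq_or_lt_of_le ht0.1 with h | h
    · rw [← h]
      refine ⟨_, hL, le_rfl, hsum, ?_, fun _ => rfl⟩
      intro h'
      norm_num at h'
    rcases eq_or_lt_of_le ht0.2 with h' | h'
    · rw [h']
      refine ⟨_, hR, hsum, le_rfl, fun _ => rfl, ?_⟩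
      intro h''
      norm_num at h''
    · obtain ⟨m, hm⟩ := exists_SG hA.cvx h h'
      refine ⟨m, hm, ?_, ?_, fun h'' => absurd h'' h'.ne, fun h'' => absurd h'' h.ne'⟩
      · have h1 := hm.2 (-1) hm1
        have h2 := hL.2 t0 ht0
        by_contra hc
        rw [not_le] at hc
        have := mul_lt_mul_of_pos_right hc (show (0 : ℝ) < t0 + 1 by linarith)
        linarith
      · have h1 := hm.2 1 hp1
        have h2 := hR.2 t0 ht0
        by_contra hc
        rw [not_le] at hc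
        have := mul_lt_mul_of_pos_right hc (show (0 : ℝ) < 1 - t0 by linarith)
        linarith
  by_cases hG1 : 0 < p * (m0 * t0 - f t0) - (p - 2) * m0
  · have ht1 : t0 < 1 := by
      refine lt_of_le_of_ne ht0.2 fun h => ?_
      have h3 := e1 h
      rw [h, h3] at hG1
      have : p * (p / 2 * f 1 * 1 - f 1) - (p - 2) * (p / 2 * f 1) = 0 := by ring
      linarith
    exact hC2 p f hA t0 m0 hm ht1 hlo hG1
  by_cases hG2 : 0 < p * (m0 * t0 - f t0) + (p - 2) * m0
  · have ht1 : -t0 < 1 := by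
      have : -1 < t0 := by
        refine lt_of_le_of_ne ht0.1 fun h => ?_
        have h3 := e2 h.symm
        rw [← h, h3] at hG2
        have : p * (-(p / 2 * f (-1)) * -1 - f (-1)) + (p - 2) * -(p / 2 * f (-1)) = 0 := by ring
        linarith
      linarith
    have hsg : SG (mir f) (-t0) (-m0) := by
      refine ⟨⟨by linarith [ht0.2], by linarith [ht0.1]⟩, fun u hu => ?_⟩
      have := hm.2 (-u) ⟨by linarith [hu.2], by linarith [hu.1]⟩
      simp only [mir, neg_neg]
      linarith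
    obtain ⟨α, β, hRC, hB, hv⟩ := hC2 p (mir f) hA' (-t0) (-m0) hsg ht1
      (by simp only [mir, neg_neg]; linarith)
      (by simp only [mir, neg_neg]; linarith)
    refine ⟨α, fun s => -β s, ?_, ?_, ?_⟩
    · have := hSCL α β 1 (-1) 1 hRC zero_le_one (by norm_num) one_pos
      convert this using 2
      · rw [one_mul, one_mul]
      · rw [one_mul]; ring
    · intro s v hs hv'
      have h3 := hB s (-v) hs (by rwa [abs_neg])
      simp only [mir] at h3
      rw [neg_div, neg_neg] at h3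
      linarith
    · simp only [mir, neg_neg] at hv
      linarith
  · rw [not_lt] at hG1 hG2
    have hA0 : |p - 2| * |m0| ≤ p * (f t0 - m0 * t0) := by
      rw [← abs_mul]
      exact abs_le.2 ⟨by linarith, by linarith⟩
    refine ⟨_, _, hRC1 p (f t0 - m0 * t0) m0 hp hA0, ?_, ?_⟩
    · intro s v hs hv
      simp only
      rcases eq_or_lt_of_le hs with h | h
      · rw [← h, Real.zero_rpow (by linarith)]
        simp
      · have h1 : s ^ (p - 2) * (s * v) = s ^ p * (v / s) := by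
          rw [Real.rpow_sub h, Real.rpow_two]
          field_simp
        have h2 : v / s ∈ Icc (-1 : ℝ) 1 := by
          rw [abs_le] at hv
          constructor
          · rw [le_div_iff₀ h]; linarith
          · rw [div_le_iff₀ h]; linarith
        have h3 := hm.2 _ h2
        have h4 : (f t0 - m0 * t0) * s ^ p + m0 * s ^ (p - 2) * (s * v) =
            s ^ p * (f t0 + m0 * (v / s - t0)) := by
          rw [mul_assoc m0, h1]; ring
        rw [h4]
        exact mul_le_mul_of_nonneg_left h3 (Real.rpow_nonneg hs _)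
    · simp only [Real.one_rpow]
      ring

end Pool.Agent.W414.HM
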